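import Mathlib

set_option autoImplicit false

namespace Pool.Agent.Results.MP_f7162b_al.No

open Polynomial LinearMap Function

def Z (p : ℕ) [Fact p.Prime] : Subring ℚ where
  carrier := {q | padicNorm p q ≤ 1}
  mul_mem' {a b} ha hb := by
    show padicNorm p (a * b) ≤ 1
    rw [padicNorm.mul]; exact mul_le_one₀ ha (padicNorm.nonneg _) hb
  one_mem' := padicNorm.one.le
  add_mem' ha hb := padicNorm.nonarchimedean.trans (max_le ha hb)
  zero_mem' := padicNorm.zero.trans_le zero_le_one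
  neg_mem' {a} ha := (padicNorm.neg a).trans_le ha

lemma inv_mem {p : ℕ} [Fact p.Prime] {q : ℕ} (h : ¬ p ∣ q) : (q : ℚ)⁻¹ ∈ Z p := by
  show padicNorm p _ ≤ 1
  rw [IsAbsoluteValue.abv_inv (padicNorm p), (padicNorm.nat_eq_one_iff q).2 h, inv_one]

lemma zero_of {p : ℕ} [hp : Fact p.Prime] {c : ℚ} (h : ∀ k : ℕ, (p : ℚ)⁻¹ ^ k * c ∈ Z p) : c = 0 := by
  by_contra e
  have h0 : 0 < padicNorm p c := (padicNorm.nonneg c).lt_of_ne' (padicNorm.nonzero e)
  obtain ⟨k, hk⟩ := pow_unbounded_of_one_lt (padicNorm p c)⁻¹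
    (show (1 : ℚ) < p by exact_mod_cast hp.out.one_lt)
  have : padicNorm p _ ≤ 1 := h k
  rw [padicNorm.mul, IsAbsoluteValue.abv_pow (padicNorm p), IsAbsoluteValue.abv_inv (padicNorm p),
    padicNorm.padicNorm_p_of_prime, inv_inv] at this
  rw [inv_lt_iff_one_lt_mul₀ h0] at hk
  exact hk.not_ge this

noncomputable def D : ℚ[X] →ₗ[ℚ] ℚ[X] :=
  { toFun := divX, map_add' := fun _ _ => divX_add, map_smul' := by intros; ext; simp [coeff_divX] }

lemma D_coeff (v : ℚ[X]) (n : ℕ) : (D v).coeff n = v.coeff (n + 1) := coeff_divX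
lemma D_succ (n : ℕ) (c : ℚ) : D (monomial (n + 1) c) = monomial n c := by
  ext; simp [D_coeff, coeff_monomial]
lemma D_zero (c : ℚ) : D (monomial 0 c) = 0 := by ext; simp [D_coeff]

abbrev W := ℚ[X] × ℚ[X]
noncomputable def ι : Fin 4 → ℚ[X] →ₗ[ℚ] W := ![inl _ _ _, inr _ _ _, id.prod id, id.prod D]
noncomputable def L : Fin 4 → W →ₗ[ℚ] ℚ[X] :=
  ![snd _ _ _, fst _ _ _, fst _ _ _ - snd _ _ _, D ∘ₗ fst _ _ _ - snd _ _ _]
def pr : Fin 4 → ℕ := ![3, 5, 7, 11]
instance (i : Fin 4) : Fact (pr i).Prime := ⟨by fin_cases i <;> simp [pr] <;> norm_num⟩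

def S : Set W := {g | ∃ i n k, g = ι i (monomial n ((pr i : ℚ)⁻¹ ^ k))}
noncomputable def e : W := (C (2 : ℚ)⁻¹, 0)
noncomputable def G : AddSubgroup W := AddSubgroup.closure (insert e S)

lemma gen (i : Fin 4) (n k : ℕ) : ι i (monomial n ((pr i : ℚ)⁻¹ ^ k)) ∈ G :=
  AddSubgroup.subset_closure (Or.inr ⟨i, n, k, rfl⟩)
lemma eG : e ∈ G := AddSubgroup.subset_closure (Or.inl rfl)

def I (p : ℕ) [Fact p.Prime] (v : ℚ[X]) : Prop := ∀ n, v.coeff n ∈ Z p

lemma I_gen {p : ℕ} [Fact p.Prime] (i : Fin 4) (n : ℕ) {c : ℚ} (h : c ∈ Z p) :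
    I p (ι i (monomial n c)).1 ∧ I p (ι i (monomial n c)).2 := by
  have a : I p (monomial n c) := fun m => by
    rw [coeff_monomial]; split_ifs; exacts [h, zero_mem _]
  have b : I p 0 := fun _ => zero_mem _
  fin_cases i
  exacts [⟨a, b⟩, ⟨b, a⟩, ⟨a, a⟩, ⟨a, fun m => D_coeff _ m ▸ a _⟩]

lemma I_L {p : ℕ} [Fact p.Prime] (i : Fin 4) {g : W} (h : I p g.1 ∧ I p g.2) : I p (L i g) := by
  fin_cases i
  exacts [h.2, h.1, fun n => by simpa [L] using sub_mem (h.1 n) (h.2 n),
    fun n => by simpa [L, D_coeff] using sub_mem (h.1 (n + 1)) (h.2 n)]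

lemma loc (i : Fin 4) {g : W} (hg : g ∈ G) : I (pr i) (L i g) := by
  induction hg using AddSubgroup.closure_induction with
  | mem x hx =>
    rcases hx with rfl | ⟨j, n, k, rfl⟩
    · refine I_L i ⟨fun n => ?_, fun _ => zero_mem _⟩
      simp only [e, coeff_C]
      split_ifs
      · exact inv_mem (q := 2) (by fin_cases i <;> simp [pr])
      · exact zero_mem _
    · by_cases h : j = i
      · subst h
        have : ∀ v, L j (ι j v) = 0 := fun v => by fin_cases j <;> simp [L, ι]
        rw [this]; exact fun _ => zero_mem _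
      · exact I_L i (I_gen j n (pow_mem (inv_mem (by
          revert h; fin_cases i <;> fin_cases j <;> simp [pr])) k))
  | zero => rw [map_zero]; exact fun _ => zero_mem _
  | add x y _ _ hx hy => exact fun n => by simpa using add_mem (hx n) (hy n)
  | neg x _ hx => exact fun n => by simpa using neg_mem (hx n)

lemma loc2 {g : W} (hg : g ∈ G) (n : ℕ) : g.1.coeff (n + 1) ∈ Z 2 := by
  induction hg using AddSubgroup.closure_induction with
  | mem x hx =>
    rcases hx with rfl | ⟨j, m, k, rfl⟩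
    · simp [e]
    · exact (I_gen j m (pow_mem (inv_mem (by fin_cases j <;> simp [pr])) k)).1 _
  | zero => simp
  | add x y _ _ hx hy => simpa using add_mem hx hy
  | neg x _ hx => simpa using neg_mem hx

lemma hopf (f : G →+ G) (hf : Surjective f) : Injective f := by
  have : DivisibleBy W ℤ := ⟨fun x n => (n : ℚ)⁻¹ • x, by simp, fun {n} x hn => by
    rw [← Int.cast_smul_eq_zsmul ℚ, smul_smul, mul_inv_cancel₀ (by exact_mod_cast hn), one_smul]⟩
  obtain ⟨h, hh⟩ := (Module.Baer.of_divisible W).extension_property_addMonoidHom G.subtype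
    Subtype.val_injective (G.subtype.comp f)
  let P := h.toRatLinearMap
  have hP : ∀ g : G, P g = f g := fun g => DFunLike.congr_fun hh g
  have mem : ∀ g ∈ G, P g ∈ G := fun g hg => hP ⟨g, hg⟩ ▸ (f _).2
  have k : ∀ i v, L i (P (ι i v)) = 0 := fun i v => by
    induction v using Polynomial.induction_on' with
    | add p q hp hq => simp [hp, hq]
    | monomial n c =>
      have : L i (P (ι i (monomial n 1))) = 0 := by
        ext m
        refine zero_of (p := pr i) fun k => ?_
        have := loc i (mem _ (gen i n k)) m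
        rwa [← mul_one (_ ^ k), ← smul_eq_mul, ← smul_monomial, map_smul, map_smul, map_smul,
          coeff_smul] at this
      rw [← mul_one c, ← smul_eq_mul, ← smul_monomial, map_smul, map_smul, map_smul, this, smul_zero]
  let A : ℚ[X] →ₗ[ℚ] ℚ[X] := fst _ _ _ ∘ₗ P ∘ₗ inl _ _ _
  have k1 : ∀ v, P (v, 0) = (A v, 0) := fun v => Prod.ext rfl (k 0 v)
  have k2 : ∀ v w, P (v, w) = P (v, 0) + P (0, w) := fun v w => by rw [← map_add]; simp
  have k3 : ∀ v, P (0, v) = (0, A v) := fun v => by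
    have a : (P (0, v)).1 = 0 := k 1 v
    have b : (P (v, v)).1 - (P (v, v)).2 = 0 := k 2 v
    rw [k2, k1] at b
    refine Prod.ext a ?_
    simp only [Prod.fst_add, Prod.snd_add, a] at b
    linear_combination -b
  have k4 : ∀ g : W, P g = (A g.1, A g.2) := fun g => by rw [k2 g.1 g.2, k1, k3]; simp
  have k5 : ∀ v, D (A v) = A (D v) := fun v => by
    have b : D (P (v, D v)).1 - (P (v, D v)).2 = 0 := k 3 v
    rw [k4] at b
    exact sub_eq_zero.1 b
  by_contra hn
  have h1 : A 1 = 0 := by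
    by_contra a1
    have c : ∀ v, D v = 0 → A v = 0 → v = 0 := fun v h1 h2 => by
      rw [divX_eq_zero_iff.1 h1, ← mul_one (C _), ← smul_eq_C_mul] at h2 ⊢
      rw [map_smul] at h2
      rw [(smul_eq_zero.1 h2).resolve_right a1, zero_smul]
    have i : ∀ n v, v.natDegree ≤ n → A v = 0 → v = 0 := fun n => by
      induction n with
      | zero => exact fun v h1 h2 => c v (divX_eq_zero_iff.2 (eq_C_of_natDegree_le_zero h1)) h2
      | succ n ih =>
        refine fun v h1 h2 => c v (ih _ ?_ (by rw [← k5, h2, map_zero])) h2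
        show (divX v).natDegree ≤ n
        rw [natDegree_divX_eq_natDegree_tsub_one]; omega
    have inj := fun v => i _ v le_rfl
    refine hn ((injective_iff_map_eq_zero f).2 fun g hg => Subtype.ext ?_)
    have := hP g
    rw [hg, k4] at this
    exact Prod.ext (inj _ (congrArg Prod.fst this)) (inj _ (congrArg Prod.snd this))
  obtain ⟨g, hg⟩ := hf ⟨e, eG⟩
  have a : A g.1.1 = C 2⁻¹ := by
    have := hP g
    rw [hg, k4] at this
    exact congrArg Prod.fst this
  have b : (A g.1.1).coeff 0 ∈ Z 2 := by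
    rw [g.1.1.as_sum_support, map_sum, finsetSum_coeff]
    refine sum_mem fun n _ => ?_
    rw [← mul_one (coeff _ n), ← smul_eq_mul, ← smul_monomial, map_smul, coeff_smul]
    rcases n with _ | n
    · simp [h1]
    · refine mul_mem (loc2 g.2 n) ?_
      rw [← D_succ, ← k5, D_coeff]
      have := loc2 (mem _ (gen 0 (n + 2) 0)) 0
      rwa [k4, pow_zero] at this
  rw [a, coeff_C_zero] at b
  have : padicNorm 2 ((2 : ℕ) : ℚ)⁻¹ ≤ 1 := b
  rw [IsAbsoluteValue.abv_inv (padicNorm 2), padicNorm.padicNorm_p_of_prime] at this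
  norm_num at this

lemma shift (i : Fin 4) (v : ℚ[X]) : D.prodMap D (ι i v) = ι i (D v) := by
  fin_cases i <;> simp [ι]

lemma phi_mem {g : W} (hg : g ∈ G) : D.prodMap D g ∈ G := by
  induction hg using AddSubgroup.closure_induction with
  | mem x hx =>
    rcases hx with rfl | ⟨j, _ | m, k, rfl⟩
    · have : D.prodMap D e = 0 := Prod.ext (D_zero _) (map_zero D)
      exact this ▸ zero_mem _
    · rw [shift, D_zero, map_zero]; exact zero_mem _
    · rw [shift, D_succ]; exact gen _ _ _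
  | zero => rw [map_zero]; exact zero_mem _
  | add x y _ _ hx hy => rw [map_add]; exact add_mem hx hy
  | neg x _ hx => rw [map_neg]; exact neg_mem hx

noncomputable def φ : G →+ G :=
  ((D.prodMap D).toAddMonoidHom.comp G.subtype).codRestrict G fun g => phi_mem g.2

theorem result : ∃ (G : Type) (_ : AddCommGroup G),
    (∀ (n : ℤ) (x : G), n ≠ 0 → n • x = 0 → x = 0) ∧
    (∀ f : G →+ G, Surjective f → Bijective f) ∧
    ∃ φ : G →+ G, Finite (G ⧸ φ.range) ∧ φ.ker ≠ ⊥ := by
  refine ⟨G, inferInstance, fun n x hn h => (smul_eq_zero.1 h).resolve_left hn,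
    fun f hf => ⟨hopf f hf, hf⟩, φ, ?_, fun h => ?_⟩
  · have r : ∀ i n k, (⟨_, gen i n k⟩ : G) ∈ φ.range := fun i n k =>
      ⟨⟨_, gen i (n + 1) k⟩, Subtype.ext ((shift _ _).trans (by rw [D_succ]))⟩
    let E : G ⧸ φ.range := QuotientAddGroup.mk ⟨e, eG⟩
    have e2 : E + E = 0 := by
      rw [← QuotientAddGroup.mk_add, QuotientAddGroup.eq_zero_iff]
      convert r 0 0 0 using 1
      refine Subtype.ext (Prod.ext ?_ (by simp [e, ι]))
      simp only [AddMemClass.mk_add_mk, e, Prod.mk_add_mk, ← C_add]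
      norm_num [ι]
    have k : ∀ g (hg : g ∈ G), (QuotientAddGroup.mk ⟨g, hg⟩ : G ⧸ φ.range) ∈ ({0, E} : Set _) := by
      intro g hg
      induction hg using AddSubgroup.closure_induction with
      | mem x hx =>
        rcases hx with rfl | ⟨j, m, k, rfl⟩
        exacts [Or.inr rfl, Or.inl ((QuotientAddGroup.eq_zero_iff _).2 (r _ _ _))]
      | zero => exact Or.inl rfl
      | add x y hx' hy' hx hy =>
        rw [show (⟨x + y, _⟩ : G) = ⟨x, hx'⟩ + ⟨y, hy'⟩ from rfl, QuotientAddGroup.mk_add]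
        rcases hx with h | h <;> rcases hy with h' | h' <;> rw [h, h'] <;> simp [e2]
      | neg x hx' hx =>
        rw [show (⟨-x, _⟩ : G) = -⟨x, hx'⟩ from rfl, QuotientAddGroup.mk_neg]
        rcases hx with h | h <;> rw [h]
        · simp
        · exact Or.inr (neg_eq_of_add_eq_zero_left e2)
    exact Set.finite_univ_iff.1 ((Set.toFinite {0, E}).subset fun q _ =>
      QuotientAddGroup.induction_on q fun g => k g.1 g.2)
  · have : (⟨e, eG⟩ : G) ∈ φ.ker := Subtype.ext (Prod.ext (D_zero _) (map_zero D))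
    rw [h, AddSubgroup.mem_bot] at this
    simpa [e] using congrArg (fun g : G => g.1.1) this

end Pool.Agent.Results.MP_f7162b_al.No
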